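import Pool.Agent.Helper44.TOT.Defs

set_option autoImplicit false

namespace Pool.Agent.Helper40.TOT

open Pool.Agent.Helper44.TOT

theorem sum_inv_sq (k : ℕ) (hk : 2 ≤ k) (L : ℕ) :
    ∑ l ∈ Finset.Ico k L, (1 : ℝ) / (l : ℝ) ^ 2 ≤ 1 / ((k : ℝ) - 1) := by
  have hk' : (2 : ℝ) ≤ k := by exact_mod_cast hk
  by_cases hL : k ≤ L
  · have h : ∑ l ∈ Finset.Ico k L, (1 : ℝ) / (l : ℝ) ^ 2 ≤ 1 / ((k : ℝ) - 1) - 1 / ((L : ℝ) - 1) := by
      induction L, hL using Nat.le_induction with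
      | base => simp
      | succ n hn ih =>
        rw [Finset.sum_Ico_succ_top hn]
        have hn' : (k : ℝ) ≤ n := by exact_mod_cast hn
        have hn2 : (2 : ℝ) ≤ n := le_trans hk' hn'
        have h1 : (1 : ℝ) / (n : ℝ) ^ 2 ≤ 1 / ((n : ℝ) - 1) - 1 / (((n + 1 : ℕ) : ℝ) - 1) := by
          push_cast
          rw [add_sub_cancel_right, div_sub_div _ _ (by linarith) (by linarith)]
          rw [div_le_div_iff₀ (by positivity) (by nlinarith)]
          nlinarith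
        linarith
    have hL' : (2 : ℝ) ≤ L := le_trans hk' (by exact_mod_cast hL)
    have h2 : 0 ≤ 1 / ((L : ℝ) - 1) := div_nonneg zero_le_one (by linarith)
    linarith
  · rw [Finset.Ico_eq_empty_of_le (by omega)]
    rw [Finset.sum_empty]
    exact div_nonneg zero_le_one (by linarith)

theorem squares : Squares := by
  intro X w S hw hX hS
  set k := ⌈w⌉₊ with hk
  have hwk : w ≤ k := Nat.le_ceil w
  have hk2 : 2 ≤ k := by
    have : (2 : ℝ) ≤ k := le_trans hw hwk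
    exact_mod_cast this
  have hk2' : (2 : ℝ) ≤ k := by exact_mod_cast hk2
  have hsub : S ⊆ (Finset.Ico k (⌊X⌋₊ + 1)).biUnion
      (fun l => (Finset.Ioc 0 ⌊X⌋₊).filter (fun n => l ^ 2 ∣ n)) := by
    intro n hn
    obtain ⟨h1, h2, l, hl, hwl, hdvd⟩ := hS n hn
    have hnX : n ≤ ⌊X⌋₊ := Nat.le_floor h2
    rw [Finset.mem_biUnion]
    refine ⟨l, ?_, ?_⟩
    · rw [Finset.mem_Ico]
      refine ⟨Nat.ceil_le.2 hwl, ?_⟩
      have h3 := Nat.le_of_dvd (by omega) hdvd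
      have h4 : l ≤ l ^ 2 := Nat.le_self_pow (by norm_num) l
      omega
    · rw [Finset.mem_filter, Finset.mem_Ioc]
      exact ⟨⟨by omega, hnX⟩, hdvd⟩
  have hcard : (S.card : ℝ) ≤ ∑ l ∈ Finset.Ico k (⌊X⌋₊ + 1), X * (1 / (l : ℝ) ^ 2) := by
    have h1 : S.card ≤ ∑ l ∈ Finset.Ico k (⌊X⌋₊ + 1), ⌊X⌋₊ / l ^ 2 := by
      refine le_trans (Finset.card_le_card hsub) (le_trans Finset.card_biUnion_le ?_)
      apply Finset.sum_le_sum
      intro l _
      rw [Nat.Ioc_filter_dvd_card_eq_div]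
    have h2 : (S.card : ℝ) ≤ ((∑ l ∈ Finset.Ico k (⌊X⌋₊ + 1), ⌊X⌋₊ / l ^ 2 : ℕ) : ℝ) := by
      exact_mod_cast h1
    refine le_trans h2 ?_
    rw [Nat.cast_sum]
    apply Finset.sum_le_sum
    intro l _
    refine le_trans Nat.cast_div_le ?_
    rw [mul_one_div]
    push_cast
    exact div_le_div_of_nonneg_right (Nat.floor_le hX) (by positivity)
  rw [← Finset.mul_sum] at hcard
  refine le_trans hcard ?_
  refine le_trans (mul_le_mul_of_nonneg_left (sum_inv_sq k hk2 _) hX) ?_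
  rw [mul_one_div, div_le_div_iff₀ (by linarith) (by linarith)]
  nlinarith

end Pool.Agent.Helper40.TOT
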