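import Pool.Agent.Helper44.TOT.Defs

set_option autoImplicit false

namespace Pool.Agent.Helper40.TOT

open Pool.Agent.Helper44.TOT

theorem ff_totient (hF : FFprops) : ∀ n : ℕ, 1 ≤ n →
    (Even n → FF (Nat.totient n) + 1 = FF n) ∧ (Odd n → FF (Nat.totient n) = FF n) := by
  obtain ⟨F1, F2, F3, F4, _⟩ := hF
  intro n
  induction n using Nat.strong_induction_on with
  | _ n ih =>
    intro hn
    rcases Nat.lt_or_ge n 2 with hn2 | hn2
    · have : n = 1 := by omega
      subst this
      refine ⟨fun h => absurd h (by decide), fun _ => by simp⟩
    · set p := n.minFac with hp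
      have hpp : p.Prime := Nat.minFac_prime (by omega)
      obtain ⟨m, hm⟩ : p ∣ n := Nat.minFac_dvd n
      have hm1 : 1 ≤ m := by
        rcases Nat.eq_zero_or_pos m with rfl | h
        · simp at hm; omega
        · exact h
      have hmn : m < n := by
        rw [hm]
        have := hpp.two_le
        nlinarith
      obtain ⟨ih1, ih2⟩ := ih m hmn hm1
      have hFn : FF n = FF p + FF m := by
        rw [hm]
        exact F4 p m hpp.one_lt.le hm1
      have hφm : 1 ≤ Nat.totient m := Nat.totient_pos.2 hm1
      by_cases hpm : p ∣ m
      · have h1 : Nat.totient n = p * Nat.totient m := by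
          rw [hm]
          exact Nat.totient_mul_of_prime_of_dvd hpp hpm
        have h2 : FF (Nat.totient n) = FF p + FF (Nat.totient m) := by
          rw [h1]
          exact F4 p _ hpp.one_lt.le hφm
        have hpar : Even n ↔ Even m := by
          rw [hm, Nat.even_mul]
          constructor
          · rintro (h | h)
            · exact (Nat.even_iff.2 (by
                have := h.two_dvd.trans hpm
                omega))
            · exact h
          · exact Or.inr
        constructor
        · intro he
          have := ih1 (hpar.1 he)
          omega
        · intro ho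
          have := ih2 (by
            rw [← Nat.not_even_iff_odd] at ho ⊢
            exact fun h => ho (hpar.2 h))
          omega
      · have h1 : Nat.totient n = (p - 1) * Nat.totient m := by
          rw [hm]
          exact Nat.totient_mul_of_prime_of_not_dvd hpp hpm
        have hp1 : 1 ≤ p - 1 := by
          have := hpp.two_le
          omega
        have h2 : FF (Nat.totient n) = FF (p - 1) + FF (Nat.totient m) := by
          rw [h1]
          exact F4 _ _ hp1 hφm
        rcases hpp.eq_two_or_odd' with h | h
        · have hmo : Odd m := by
            rw [← Nat.not_even_iff_odd]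
            intro he
            apply hpm
            rw [h]
            exact he.two_dvd
          have hne : Even n := by
            rw [hm, h]
            exact even_two_mul m
          have h3 := ih2 hmo
          rw [h] at h2 hFn
          norm_num at h2
          constructor
          · intro _
            omega
          · intro ho
            exact absurd hne (Nat.not_even_iff_odd.2 ho)
        · have hp3 : 3 ≤ p := by
            have := hpp.two_le
            rcases h with ⟨k, hk⟩
            omega
          have h3 := F3 p hpp hp3
          have hpar : Even n ↔ Even m := by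
            rw [hm, Nat.even_mul]
            constructor
            · rintro (h' | h')
              · exact absurd h' (Nat.not_even_iff_odd.2 h)
              · exact h'
            · exact Or.inr
          constructor
          · intro he
            have := ih1 (hpar.1 he)
            omega
          · intro ho
            have := ih2 (by
              rw [← Nat.not_even_iff_odd] at ho ⊢
              exact fun h => ho (hpar.2 h))
            omega

theorem sInf_step (n : ℕ) (hn : 3 ≤ n)
    (hne : {k : ℕ | 1 ≤ k ∧ Nat.totient^[k] (Nat.totient n) = 1}.Nonempty) :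
    sInf {k : ℕ | 1 ≤ k ∧ Nat.totient^[k] n = 1} =
      sInf {k : ℕ | 1 ≤ k ∧ Nat.totient^[k] (Nat.totient n) = 1} + 1 := by
  have hφ : Nat.totient n ≠ 1 := by
    intro h
    rw [Nat.totient_eq_one_iff] at h
    omega
  set T := {k : ℕ | 1 ≤ k ∧ Nat.totient^[k] (Nat.totient n) = 1} with hT
  set U := {k : ℕ | 1 ≤ k ∧ Nat.totient^[k] n = 1} with hU
  have h1 : sInf T + 1 ∈ U := by
    obtain ⟨h, h'⟩ := Nat.sInf_mem hne
    refine ⟨by omega, ?_⟩
    rw [Function.iterate_succ_apply]
    exact h'
  apply le_antisymm
  · exact Nat.sInf_le h1
  · obtain ⟨h, h'⟩ := Nat.sInf_mem ⟨_, h1⟩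
    set k := sInf U with hk
    obtain ⟨j, hj⟩ : ∃ j, k = j + 1 := ⟨k - 1, by omega⟩
    rw [hj] at h' ⊢
    rw [Function.iterate_succ_apply] at h'
    have hj1 : 1 ≤ j := by
      rcases Nat.eq_zero_or_pos j with rfl | h0
      · simp at h'
        exact absurd (Nat.totient_eq_one_iff.2 (by omega)) hφ
      · exact h0
    have : sInf T ≤ j := Nat.sInf_le ⟨hj1, h'⟩
    omega

theorem fvsF_of (hF : FFprops) : fvsF := by
  intro n
  induction n using Nat.strong_induction_on with
  | _ n ih =>
    intro hn
    rcases Nat.lt_or_ge n 3 with hn3 | hn3
    · have : n = 2 := by omega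
      subst this
      refine ⟨fun _ => ?_, fun h => absurd h (by decide)⟩
      rw [hF.2.1]
      apply le_antisymm
      · apply Nat.sInf_le
        refine ⟨le_refl _, by simp⟩
      · have h1 : {k : ℕ | 1 ≤ k ∧ Nat.totient^[k] 2 = 1}.Nonempty := ⟨1, le_refl _, by simp⟩
        exact (Nat.sInf_mem h1).1
    · have hφe : Even (Nat.totient n) := Nat.totient_even (by omega)
      have hφpos : 0 < Nat.totient n := Nat.totient_pos.2 (by omega)
      have hφ2 : 2 ≤ Nat.totient n := by
        rcases hφe with ⟨k, hk⟩
        omega
      have hφlt : Nat.totient n < n := Nat.totient_lt n (by omega)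
      have h1 := (ih _ hφlt hφ2).1 hφe
      obtain ⟨h2, h3⟩ := ff_totient hF n (by omega)
      have hFpos : 0 < FF (Nat.totient n) := by
        have h4 := (hF.2.2.2.2 (Nat.totient n) hφpos).2
        have h5 : 0 < Real.log (Nat.totient n) / Real.log 3 := by
          apply div_pos
          · apply Real.log_pos
            exact_mod_cast (by omega : 1 < Nat.totient n)
          · exact Real.log_pos (by norm_num)
        have h6 : (0 : ℝ) < FF (Nat.totient n) := lt_of_lt_of_le h5 h4
        exact_mod_cast h6
      have hne : {k : ℕ | 1 ≤ k ∧ Nat.totient^[k] (Nat.totient n) = 1}.Nonempty := by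
        apply Nat.nonempty_of_pos_sInf
        omega
      have h7 := sInf_step n hn3 hne
      constructor
      · intro he
        have := h2 he
        omega
      · intro ho
        have := h3 ho
        omega

end Pool.Agent.Helper40.TOT
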