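import Pool.Agent.Helper44.TOT.Defs

set_option autoImplicit false

namespace Pool.Agent.Helper40.TOT

open Pool.Agent.Helper44.TOT Filter

theorem tendsto_tt (x0 : ℕ) (hx0 : 3 ≤ x0) : Tendsto (fun y : ℕ => tt x0 y) atTop atTop := by
  unfold tt
  have hlog : 0 < Real.log x0 := Real.log_pos (by exact_mod_cast (by omega : 1 < x0))
  exact Real.tendsto_log_atTop.comp ((Real.tendsto_log_atTop.comp
    tendsto_natCast_atTop_atTop).atTop_div_const hlog)

theorem theoremP (hI : Induct) : TheoremP := by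
  classical
  obtain ⟨a, C0, ρ, ι, C6, N0, ε, hC, hG, hmain⟩ := hI
  have hC0 : 0 < C0 := lt_of_lt_of_le one_pos hC.hC0
  refine ⟨C0 * Real.exp (-((3 * N0) ^ a)), by positivity, ?_⟩
  intro B hB
  obtain ⟨ε0, X0, hε0, hmain⟩ := hmain B hB
  have hN0 := hG.hN0
  have hρ := hC.hρ
  have hεpos : 0 < ε := by
    rw [hG.hε]
    positivity
  refine ⟨ε0, (N0 * B) ^ (-(2 * (a : ℝ) + 3)), max X0 3, hε0, ?_, ?_, ?_⟩
  · exact Real.rpow_pos_of_pos (by positivity) _
  · have h1 : (N0 * B) ^ (-(2 * (a : ℝ) + 3)) ≤ N0 ^ (-(2 * (a : ℝ) + 3)) := by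
      apply Real.rpow_le_rpow_of_nonpos (by positivity)
      · nlinarith
      · have : (0 : ℝ) ≤ a := Nat.cast_nonneg a
        linarith
    have := hG.small
    linarith
  · intro h x0 hx0 hPH
    have hx0X : X0 ≤ x0 := le_trans (le_max_left _ _) hx0
    have hx03 : 3 ≤ x0 := le_trans (le_max_right _ _) hx0
    have hIH := hmain h x0 hx0X hPH
    intro θ hθ
    -- the level tends to infinity
    have hlim : Tendsto (fun y : ℕ => C0 * Real.exp (-(1 / 4 * (1 + ε * tt x0 y)))) atTop
        (nhds (C0 * 0)) := by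
      apply Tendsto.const_mul
      apply Real.tendsto_exp_neg_atTop_nhds_zero.comp
      apply Tendsto.const_mul_atTop (by norm_num)
      apply tendsto_atTop_add_const_left
      exact Tendsto.const_mul_atTop hεpos (tendsto_tt x0 hx03)
    rw [mul_zero] at hlim
    have hev1 := hlim.eventually (gt_mem_nhds hθ)
    have hev2 := (tendsto_tt x0 hx03).eventually (eventually_ge_atTop (3 / ε))
    obtain ⟨X, hX⟩ := (hev1.and hev2).exists_forall_of_atTop
    refine ⟨max X (max x0 3), ?_⟩
    intro y hy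
    have hyX : X ≤ y := le_trans (le_max_left _ _) hy
    have hyx0 : x0 ≤ y := le_trans (le_trans (le_max_left _ _) (le_max_right _ _)) hy
    have hy3 : 3 ≤ y := le_trans (le_trans (le_max_right _ _) (le_max_right _ _)) hy
    obtain ⟨h1, h2⟩ := hX y hyX
    set t := tt x0 y with ht
    have hεt : 3 ≤ ε * t := by
      rw [div_le_iff₀ hεpos] at h2
      linarith
    have ht0 : 0 ≤ t := le_trans (by positivity) h2
    set Nt := NN N0 ε t with hNt
    have hNt1 : (1 + ε * t) ≤ Nt := by
      rw [hNt]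
      unfold NN
      nlinarith
    have hNt4 : 1 ≤ Nt / 4 := by linarith
    have hbb : bb ε t ≤ 1 / 2 := by
      unfold bb
      have : 0 ≤ 1 / (1 + ε * t) := by positivity
      linarith
    have h3 := hIH y hyx0 (Nt / 4) (by linarith)
    rw [← ht, ← hNt] at h3
    have hsub : (blk (fun q => 3 / 4 ≤ h q) y : ℝ) ≤
        (blk (fun q => Nt / 4 ≤ Nt * (h q - bb ε t)) y : ℝ) := by
      unfold blk
      have : ((Finset.Ioc (y / 2) y).filter (fun q => q.Prime ∧ 3 / 4 ≤ h q)).card ≤
          ((Finset.Ioc (y / 2) y).filter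
            (fun q => q.Prime ∧ Nt / 4 ≤ Nt * (h q - bb ε t))).card := by
        apply Finset.card_le_card
        intro q hq
        rw [Finset.mem_filter] at hq ⊢
        refine ⟨hq.1, hq.2.1, ?_⟩
        have := hq.2.2
        have h5 : 1 / 4 ≤ h q - bb ε t := by linarith
        nlinarith
      exact_mod_cast this
    refine le_trans hsub (le_trans h3 ?_)
    have hylog : 0 ≤ (y : ℝ) / Real.log y := by
      apply div_nonneg (Nat.cast_nonneg _)
      apply Real.log_nonneg
      exact_mod_cast (by omega : 1 ≤ y)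
    apply mul_le_mul_of_nonneg_right _ hylog
    refine le_trans ?_ h1.le
    apply mul_le_mul_of_nonneg_left _ hC0.le
    rw [Real.exp_le_exp]
    have h6 : Nt / 4 ≤ (Nt / 4) ^ a := by
      have ha := hC.ha
      calc Nt / 4 = (Nt / 4) ^ 1 := (pow_one _).symm
        _ ≤ (Nt / 4) ^ a := pow_le_pow_right₀ hNt4 (by omega)
    linarith

end Pool.Agent.Helper40.TOT
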