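import Pool.Agent.Helper44.TOT.Defs

set_option autoImplicit false

namespace Pool.Agent.Helper40.TOT

open Pool.Agent.Helper44.TOT

theorem typeA (hLM : LM) : TypeA := by
  classical
  intro a C0 ρ ι hC A A' C
  obtain ⟨X0, hX0⟩ := hLM a C0 ρ ι hC A'
  refine ⟨max X0 3, ?_⟩
  intro x M1 N X D uB b z δ S hx hTH hSN hS
  have hxX0 : X0 ≤ x := le_trans (le_max_left _ _) hx
  have hx3 : 3 ≤ x := le_trans (le_max_right _ _) hx
  have hx1 : (1 : ℝ) ≤ x := by exact_mod_cast (by omega : 1 ≤ x)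
  have hz := hTH.hz
  have hXnn : 0 ≤ X := le_trans (by positivity) hTH.leX
  set Q := (Finset.Icc 1 x).filter (fun l : ℕ => l.Prime ∧ (x : ℝ) ^ uB ≤ l ∧
    (l : ℝ) ≤ (x : ℝ) ^ ((1 : ℝ) / 2) ∧ 7 / 5 * z ≤ b l) with hQ
  have hLMQ := (hX0 x uB b hxX0 hTH.huB hTH.tail (7 / 5 * z) Q (by linarith)).1 (by
    intro q hq
    rw [hQ, Finset.mem_filter] at hq
    exact hq.2)
  have hsub : S ⊆ Q.biUnion (fun l : ℕ => S.filter (fun n : ℕ => l ∣ n)) := by
    intro n hn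
    obtain ⟨l, hl, hln, h1, h2, h3⟩ := hS n hn
    rw [Finset.mem_biUnion]
    refine ⟨l, ?_, ?_⟩
    · rw [hQ, Finset.mem_filter, Finset.mem_Icc]
      refine ⟨⟨hl.one_lt.le, ?_⟩, hl, h1, h2, h3⟩
      have : (l : ℝ) ≤ x := by
        refine le_trans h2 ?_
        calc (x : ℝ) ^ ((1 : ℝ) / 2) ≤ (x : ℝ) ^ (1 : ℝ) :=
              Real.rpow_le_rpow_of_exponent_le hx1 (by norm_num)
          _ = x := Real.rpow_one _
      exact_mod_cast this
    · rw [Finset.mem_filter]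
      exact ⟨hn, hln⟩
  have hcard : (S.card : ℝ) ≤ ∑ l ∈ Q, 2 * D * X * (1 / (l : ℝ)) := by
    have h1 : (S.card : ℝ) ≤ ∑ l ∈ Q, ((S.filter (fun n : ℕ => l ∣ n)).card : ℝ) := by
      have := le_trans (Finset.card_le_card hsub) Finset.card_biUnion_le
      exact_mod_cast this
    refine le_trans h1 (Finset.sum_le_sum ?_)
    intro l hl
    rw [hQ, Finset.mem_filter] at hl
    obtain ⟨_, hlp, _, hl2, _⟩ := hl
    have h2 := hTH.adm.divs l (S.filter (fun n : ℕ => l ∣ n)) hlp.one_lt.le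
      (le_trans hl2 (Real.rpow_le_rpow_of_exponent_le hx1 (by norm_num)))
      (le_trans (Finset.filter_subset _ _) hSN)
      (fun n hn => (Finset.mem_filter.1 hn).2)
    refine le_trans h2 ?_
    rw [Nat.totient_prime hlp, Nat.cast_sub hlp.one_lt.le]
    have hl2' : (2 : ℝ) ≤ l := by exact_mod_cast hlp.two_le
    have hDX : 0 ≤ D * X := mul_nonneg hTH.D0 hXnn
    rw [mul_one_div, Nat.cast_one, div_le_div_iff₀ (by linarith) (by linarith)]
    nlinarith
  refine le_trans hcard ?_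
  rw [← Finset.mul_sum]
  have hDX : 0 ≤ 2 * D * X := mul_nonneg (mul_nonneg (by norm_num) hTH.D0) hXnn
  refine le_trans (mul_le_mul_of_nonneg_left hLMQ hDX) ?_
  have hexp : Real.exp (-(((1 - ι) * (7 / 5 * z)) ^ a) - (ρ / 2) ^ a) ≤
      Real.exp (-((13 / 10 * z) ^ a) - (ρ / 2) ^ a) := by
    rw [Real.exp_le_exp]
    have h1 : 13 / 10 * z ≤ (1 - ι) * (7 / 5 * z) := by
      have := hC.hι'
      nlinarith
    have h2 : (13 / 10 * z) ^ a ≤ ((1 - ι) * (7 / 5 * z)) ^ a :=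
      pow_le_pow_left₀ (by linarith) h1 a
    linarith
  have hC0 := hC.hC0
  calc 2 * D * X * (16 * C0 * Real.exp (-(((1 - ι) * (7 / 5 * z)) ^ a) - (ρ / 2) ^ a))
      ≤ 2 * D * X * (16 * C0 * Real.exp (-((13 / 10 * z) ^ a) - (ρ / 2) ^ a)) := by
        apply mul_le_mul_of_nonneg_left _ hDX
        apply mul_le_mul_of_nonneg_left hexp (by linarith)
    _ = 32 * D * X * C0 * Real.exp (-((13 / 10 * z) ^ a) - (ρ / 2) ^ a) := by ring

end Pool.Agent.Helper40.TOT
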